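import Pool.Agent.Lib_helper33.FP.GoodSet
import Pool.Agent.Lib_helper33.HOMF.LB
import Pool.Agent.Lib_helper33.HOMF.ZA
import Pool.Agent.Lib_helper23.FP.Den

/-!
# The event of one level
-/

set_option autoImplicit false

namespace Pool.Agent.HOM

open scoped BigOperators

theorem evn_dn {f g : ℤ → ℝ} (W M N : ℕ) (hWM : W ∣ M) (r : ℤ) (h : ∀ x ∈ cls W r, f x = g x)
    (x : ℤ) (hx : x ∈ cls W r) : dn M N f x = dn M N g x := by
  unfold dn
  congr 1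
  refine Finset.sum_congr rfl fun s _ => h _ ?_
  rw [mem_cls] at hx ⊢
  rw [show x + (M : ℤ) * s - r = (x - r) + M * s by ring]
  exact dvd_add hx (Dvd.dvd.mul_right (by exact_mod_cast hWM) _)

/-- In the class of `r` modulo `W` the sum of the local densities at `x + k i` is at least `A - η`
and all functions `F i` are often large near `x + k i`, for a set of `x` of positive mean. -/
theorem evn (m : Mn ℤ) (hm : m.Inv) (f f' : ℤ → ℝ) (hf : ∀ x, 0 ≤ f x ∧ f x ≤ 1)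
    (W M N p n : ℕ) (hW : 0 < W) (hWM : W ∣ M) (hN : 0 < N) (hp : 0 < p) (hn : 0 < n) (t : ℤ)
    (h : ℤ → ℝ) (r : ℤ) (k : Fin n → ℤ) (F : Fin n → ℤ → ℝ) (ε η A : ℝ) (hε : 0 < ε)
    (hε2 : ε ≤ 1 / 2) (hP : Pack m f' h (dn M N f') M p t (ε ^ 2 / 1000) (ε / 32))
    (he : ∀ i, ∀ x ∈ cls W (r + k i), f' x = f x) (hF : ∀ i x, 0 ≤ F i x ∧ F i x ≤ 2)
    (hc : ∀ i, nrm m (fun x => F i x - h x) ≤ ε ^ 2 / 1000) (hA : η ≤ A)
    (hA2 : A ≤ ∑ i, den m f W (r + k i)) :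
    η / (n * W) - n * (ε / 60) ≤ m.L ({x : ℤ | x ∈ cls W r ∧
      A - η ≤ ∑ i, dn M N f (x + k i) ∧
      ∀ i, (dn M N f (x + k i) - ε / 4) * p ≤ (cnt p t (ε / 32) (F i) (x + k i) : ℝ)}.indicator
        1) := by
  classical
  have hn' : (0 : ℝ) < n := by exact_mod_cast hn
  have hd : ∀ i x, x ∈ cls W r → dn M N f' (x + k i) = dn M N f (x + k i) := fun i x hx =>
    evn_dn W M N hWM (r + k i) (he i) _ (by
      rw [mem_cls] at hx ⊢
      rwa [show x + k i - (r + k i) = x - r by ring])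
  set g : ℤ → ℝ := fun x => ∑ i, dn M N f (x + k i) with hg
  have hgr : ∀ x, 0 ≤ g x ∧ g x ≤ n := fun x => by
    refine ⟨Finset.sum_nonneg fun i _ => (dn_rng M N hN hf _).1, ?_⟩
    refine (Finset.sum_le_sum fun i _ => (dn_rng M N hN hf (x + k i)).2).trans ?_
    simp
  have h1 : (W : ℝ) * m.L ((cls W r).indicator g) = ∑ i, den m f W (r + k i) := by
    have e : (cls W r).indicator g = ∑ i, (cls W r).indicator fun x => dn M N f (x + k i) := by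
      funext x
      rw [Finset.sum_apply]
      by_cases hx : x ∈ cls W r
      · rw [Set.indicator_of_mem hx]
        exact Finset.sum_congr rfl fun i _ => by rw [Set.indicator_of_mem hx]
      · rw [Set.indicator_of_notMem hx]
        exact (Finset.sum_eq_zero fun i _ => by rw [Set.indicator_of_notMem hx]).symm
    rw [e, map_sum, Finset.mul_sum]
    exact Finset.sum_congr rfl fun i _ => den_dn m hm f hf W M N hW hWM hN r (k i)
  have h2 := lev m hm W hW r g n hn' hgr A η hA (hA2.trans h1.ge)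
  have h3 : ∀ i, ∃ C : Set ℤ, m.L (C.indicator 1) ≤ ε / 60 ∧
      ∀ y, y ∉ C → (dn M N f' y - ε / 4) * p ≤ (cnt p t (ε / 32) (F i) y : ℝ) := fun i =>
    good_set m hm ε hε hε2 f' h _ M p hp t hP (F i) (hF i) (hc i)
  choose C hC hC' using h3
  set S : Set ℤ := {x | x ∈ cls W r ∧ A - η ≤ g x} with hS
  set E : Set ℤ := {x : ℤ | x ∈ cls W r ∧
      A - η ≤ ∑ i, dn M N f (x + k i) ∧
      ∀ i, (dn M N f (x + k i) - ε / 4) * p ≤ (cnt p t (ε / 32) (F i) (x + k i) : ℝ)} with hE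
  have hbC : ∀ i, Bd (fun x : ℤ => (C i).indicator (1 : ℤ → ℝ) (x + k i)) := fun i =>
    (la_bd (C i)).comp (fun x => x + k i)
  have h4 : m.L (S.indicator 1) ≤ m.L (fun x => E.indicator (1 : ℤ → ℝ) x +
      ∑ i, (C i).indicator (1 : ℤ → ℝ) (x + k i)) := by
    refine L_mono m (la_bd S) ((la_bd E).add (Bd.sum _ fun i _ => hbC i)) fun x => ?_
    have hs0 : 0 ≤ ∑ i, (C i).indicator (1 : ℤ → ℝ) (x + k i) :=
      Finset.sum_nonneg fun i _ => la_nonneg _ _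
    by_cases hx : x ∈ S
    · rw [la_mem hx]
      by_cases hxC : ∀ i, x + k i ∉ C i
      · have : x ∈ E := ⟨hx.1, hx.2, fun i => by
          have := hC' i _ (hxC i)
          rwa [hd i x hx.1] at this⟩
        rw [la_mem this]
        linarith
      · push Not at hxC
        obtain ⟨i, hi⟩ := hxC
        have h5 := Finset.single_le_sum (f := fun i => (C i).indicator (1 : ℤ → ℝ) (x + k i))
          (fun j _ => la_nonneg (C j) _) (Finset.mem_univ i)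
        simp only [la_mem hi] at h5
        have := la_nonneg E x
        linarith
    · rw [Set.indicator_of_notMem hx]
      have := la_nonneg E x
      linarith
  have h5 : m.L (fun x => E.indicator (1 : ℤ → ℝ) x +
      ∑ i, (C i).indicator (1 : ℤ → ℝ) (x + k i)) =
      m.L (E.indicator 1) + ∑ i, m.L (fun x => (C i).indicator (1 : ℤ → ℝ) (x + k i)) := by
    rw [← map_sum, ← map_add]
    congr 1
    funext x
    simp only [Pi.add_apply, Finset.sum_apply]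
  have h6 : ∑ i, m.L (fun x => (C i).indicator (1 : ℤ → ℝ) (x + k i)) ≤ n * (ε / 60) := by
    refine (Finset.sum_le_sum fun i _ => ((L_shift m hm (la_bd (C i)) (k i)).trans_le
      (hC i))).trans ?_
    simp
  rw [h5] at h4
  linarith

theorem ev3 (m : Mn ℤ) (hm : m.Inv) (f f' : ℤ → ℝ) (hf : ∀ x, 0 ≤ f x ∧ f x ≤ 1)
    (W M N p : ℕ) (hW : 0 < W) (hWM : W ∣ M) (hN : 0 < N) (hp : 0 < p) (t : ℤ)
    (h : ℤ → ℝ) (r a b : ℤ) (F₀ F₁ F₂ : ℤ → ℝ) (ε η A : ℝ) (hε : 0 < ε)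
    (hε2 : ε ≤ 1 / 2) (hP : Pack m f' h (dn M N f') M p t (ε ^ 2 / 1000) (ε / 32))
    (he₀ : ∀ x ∈ cls W r, f' x = f x) (he₁ : ∀ x ∈ cls W (r - a), f' x = f x)
    (he₂ : ∀ x ∈ cls W (r - b), f' x = f x) (hF₀ : ∀ x, 0 ≤ F₀ x ∧ F₀ x ≤ 2)
    (hF₁ : ∀ x, 0 ≤ F₁ x ∧ F₁ x ≤ 2) (hF₂ : ∀ x, 0 ≤ F₂ x ∧ F₂ x ≤ 2)
    (hc₀ : nrm m (fun x => F₀ x - h x) ≤ ε ^ 2 / 1000)
    (hc₁ : nrm m (fun x => F₁ x - h x) ≤ ε ^ 2 / 1000)
    (hc₂ : nrm m (fun x => F₂ x - h x) ≤ ε ^ 2 / 1000) (hA : η ≤ A)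
    (hA2 : A ≤ den m f W r + den m f W (r - a) + den m f W (r - b)) :
    η / (3 * W) - 3 * (ε / 60) ≤ m.L ({x : ℤ | x ∈ cls W r ∧
      A - η ≤ dn M N f x + dn M N f (x - a) + dn M N f (x - b) ∧
      (dn M N f x - ε / 4) * p ≤ (cnt p t (ε / 32) F₀ x : ℝ) ∧
      (dn M N f (x - a) - ε / 4) * p ≤ (cnt p t (ε / 32) F₁ (x - a) : ℝ) ∧
      (dn M N f (x - b) - ε / 4) * p ≤ (cnt p t (ε / 32) F₂ (x - b) : ℝ)}.indicator 1) := by
  have key := evn m hm f f' hf W M N p 3 hW hWM hN hp (by norm_num) t h r ![0, -a, -b]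
    ![F₀, F₁, F₂] ε η A hε hε2 hP (fun i x hx => by
      fin_cases i
      · exact he₀ x (by simpa using hx)
      · exact he₁ x (by simpa [sub_eq_add_neg] using hx)
      · exact he₂ x (by simpa [sub_eq_add_neg] using hx)) (fun i x => by
      fin_cases i
      · exact hF₀ x
      · exact hF₁ x
      · exact hF₂ x) (fun i => by
      fin_cases i
      · exact hc₀
      · exact hc₁
      · exact hc₂) hA (by
      rw [Fin.sum_univ_three]
      simpa [sub_eq_add_neg] using hA2)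
  refine le_trans (by push_cast; exact le_rfl) (key.trans (za_ind m fun x hx => ?_))
  obtain ⟨h1, h2, h3⟩ := hx
  refine ⟨h1, ?_, ?_, ?_, ?_⟩
  · rw [Fin.sum_univ_three] at h2
    simpa [sub_eq_add_neg] using h2
  · simpa using h3 0
  · simpa [sub_eq_add_neg] using h3 1
  · simpa [sub_eq_add_neg] using h3 2

theorem ev2 (m : Mn ℤ) (hm : m.Inv) (f f' : ℤ → ℝ) (hf : ∀ x, 0 ≤ f x ∧ f x ≤ 1)
    (W M N p : ℕ) (hW : 0 < W) (hWM : W ∣ M) (hN : 0 < N) (hp : 0 < p) (t : ℤ)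
    (h : ℤ → ℝ) (r a : ℤ) (F₀ F₁ : ℤ → ℝ) (ε η A : ℝ) (hε : 0 < ε)
    (hε2 : ε ≤ 1 / 2) (hP : Pack m f' h (dn M N f') M p t (ε ^ 2 / 1000) (ε / 32))
    (he₀ : ∀ x ∈ cls W r, f' x = f x) (he₁ : ∀ x ∈ cls W (r - a), f' x = f x)
    (hF₀ : ∀ x, 0 ≤ F₀ x ∧ F₀ x ≤ 2) (hF₁ : ∀ x, 0 ≤ F₁ x ∧ F₁ x ≤ 2)
    (hc₀ : nrm m (fun x => F₀ x - h x) ≤ ε ^ 2 / 1000)
    (hc₁ : nrm m (fun x => F₁ x - h x) ≤ ε ^ 2 / 1000) (hA : η ≤ A)
    (hA2 : A ≤ den m f W r + den m f W (r - a)) :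
    η / (2 * W) - 2 * (ε / 60) ≤ m.L ({x : ℤ | x ∈ cls W r ∧
      A - η ≤ dn M N f x + dn M N f (x - a) ∧
      (dn M N f x - ε / 4) * p ≤ (cnt p t (ε / 32) F₀ x : ℝ) ∧
      (dn M N f (x - a) - ε / 4) * p ≤ (cnt p t (ε / 32) F₁ (x - a) : ℝ)}.indicator 1) := by
  have key := evn m hm f f' hf W M N p 2 hW hWM hN hp (by norm_num) t h r ![0, -a]
    ![F₀, F₁] ε η A hε hε2 hP (fun i x hx => by
      fin_cases i
      · exact he₀ x (by simpa using hx)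
      · exact he₁ x (by simpa [sub_eq_add_neg] using hx)) (fun i x => by
      fin_cases i
      · exact hF₀ x
      · exact hF₁ x) (fun i => by
      fin_cases i
      · exact hc₀
      · exact hc₁) hA (by
      rw [Fin.sum_univ_two]
      simpa [sub_eq_add_neg] using hA2)
  refine le_trans (by push_cast; exact le_rfl) (key.trans (za_ind m fun x hx => ?_))
  obtain ⟨h1, h2, h3⟩ := hx
  refine ⟨h1, ?_, ?_, ?_⟩
  · rw [Fin.sum_univ_two] at h2
    simpa [sub_eq_add_neg] using h2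
  · simpa using h3 0
  · simpa [sub_eq_add_neg] using h3 1

theorem ev1 (m : Mn ℤ) (hm : m.Inv) (f f' : ℤ → ℝ) (hf : ∀ x, 0 ≤ f x ∧ f x ≤ 1)
    (W M N p : ℕ) (hW : 0 < W) (hWM : W ∣ M) (hN : 0 < N) (hp : 0 < p) (t : ℤ)
    (h : ℤ → ℝ) (r : ℤ) (F₀ : ℤ → ℝ) (ε η A : ℝ) (hε : 0 < ε)
    (hε2 : ε ≤ 1 / 2) (hP : Pack m f' h (dn M N f') M p t (ε ^ 2 / 1000) (ε / 32))
    (he₀ : ∀ x ∈ cls W r, f' x = f x) (hF₀ : ∀ x, 0 ≤ F₀ x ∧ F₀ x ≤ 2)
    (hc₀ : nrm m (fun x => F₀ x - h x) ≤ ε ^ 2 / 1000) (hA : η ≤ A)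
    (hA2 : A ≤ den m f W r) :
    η / W - ε / 60 ≤ m.L ({x : ℤ | x ∈ cls W r ∧ A - η ≤ dn M N f x ∧
      (dn M N f x - ε / 4) * p ≤ (cnt p t (ε / 32) F₀ x : ℝ)}.indicator 1) := by
  have key := evn m hm f f' hf W M N p 1 hW hWM hN hp (by norm_num) t h r (fun _ => 0)
    (fun _ => F₀) ε η A hε hε2 hP (fun i x hx => he₀ x (by simpa using hx)) (fun i x => hF₀ x)
    (fun i => hc₀) hA (by simpa using hA2)
  refine le_trans (le_of_eq (by push_cast; ring)) (key.trans (za_ind m fun x hx => ?_))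
  obtain ⟨h1, h2, h3⟩ := hx
  exact ⟨h1, by simpa using h2, by simpa using h3 0⟩

end Pool.Agent.HOM
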