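import Pool.Agent.Lib_helper49.FP.Walk
import Pool.Agent.Lib_helper33.HOMF.LA

/-!
# Four points from densities
-/

set_option autoImplicit false

namespace Pool.Agent.HOM

open scoped BigOperators

/-- The number `⌈(1 - d + 2 η) p⌉`: it bounds the size of a set whose complement has density at
least `d - η`, it is at least `p / 3` and less than `p`. -/
theorem size_of_dens {p : ℕ} (η : ℝ) (he : 0 < η) (he2 : 100 * η ≤ 1) (hp : 40 / η ≤ p) (d : ℝ)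
    (u : d ≤ 2 / 3 + η) (l : 1 / 8 ≤ d) (s c : ℕ) (g : s + c = p) (k : (d - η) * p ≤ c) :
    ∃ n : ℕ, s ≤ n ∧ p ≤ 3 * n ∧ n < p ∧ (n : ℝ) < (1 - d + 2 * η) * p + 1 := by
  have hp1 : 40 ≤ η * p := by
    rw [div_le_iff₀ he] at hp
    linarith
  have hpp : (0 : ℝ) < p := by
    by_contra h
    nlinarith
  have h4000 : (4000 : ℝ) ≤ p := by nlinarith
  have g' : (s : ℝ) + c = p := by exact_mod_cast g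
  have hpos : 0 ≤ (1 - d + 2 * η) * (p : ℝ) := by
    apply mul_nonneg _ hpp.le
    linarith
  have h1 := Nat.le_ceil ((1 - d + 2 * η) * (p : ℝ))
  have h2 := Nat.ceil_lt_add_one hpos
  refine ⟨⌈(1 - d + 2 * η) * (p : ℝ)⌉₊, ?_, ?_, ?_, h2⟩
  · have : (s : ℝ) ≤ ⌈(1 - d + 2 * η) * (p : ℝ)⌉₊ := by nlinarith
    exact_mod_cast this
  · have : (p : ℝ) ≤ 3 * ⌈(1 - d + 2 * η) * (p : ℝ)⌉₊ := by nlinarith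
    exact_mod_cast this
  · have : (⌈(1 - d + 2 * η) * (p : ℝ)⌉₊ : ℝ) < p := by nlinarith
    exact_mod_cast this

/-- Six sets of residues modulo a prime whose complements have densities with sum more than `3`,
each at most `2 / 3`: there are `x, y, z` with `x, y, z, x - y, x - z, y - z` outside the sets. -/
theorem four_of_dens {p : ℕ} [Fact p.Prime] (η ε : ℝ) (he : 0 < η) (he2 : 100 * η ≤ ε)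
    (he3 : ε ≤ 1) (hp : 40 / η ≤ p) (d₁ d₂ d₃ d₁₂ d₁₃ d₂₃ : ℝ)
    (u₁ : d₁ ≤ 2 / 3 + η) (u₂ : d₂ ≤ 2 / 3 + η) (u₃ : d₃ ≤ 2 / 3 + η) (u₁₂ : d₁₂ ≤ 2 / 3 + η)
    (u₁₃ : d₁₃ ≤ 2 / 3 + η) (u₂₃ : d₂₃ ≤ 2 / 3 + η)
    (l₁ : 1 / 8 ≤ d₁) (l₂ : 1 / 8 ≤ d₂) (l₃ : 1 / 8 ≤ d₃) (l₁₂ : 1 / 8 ≤ d₁₂)
    (l₁₃ : 1 / 8 ≤ d₁₃) (l₂₃ : 1 / 8 ≤ d₂₃)
    (hs : 3 + ε ≤ d₁ + d₂ + d₃ + d₁₂ + d₁₃ + d₂₃) (S₁ S₂ S₃ S₁₂ S₁₃ S₂₃ : Finset (ZMod p))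
    (c₁ c₂ c₃ c₁₂ c₁₃ c₂₃ : ℕ) (g₁ : S₁.card + c₁ = p) (g₂ : S₂.card + c₂ = p)
    (g₃ : S₃.card + c₃ = p) (g₁₂ : S₁₂.card + c₁₂ = p) (g₁₃ : S₁₃.card + c₁₃ = p)
    (g₂₃ : S₂₃.card + c₂₃ = p)
    (k₁ : (d₁ - η) * p ≤ c₁) (k₂ : (d₂ - η) * p ≤ c₂) (k₃ : (d₃ - η) * p ≤ c₃)
    (k₁₂ : (d₁₂ - η) * p ≤ c₁₂) (k₁₃ : (d₁₃ - η) * p ≤ c₁₃) (k₂₃ : (d₂₃ - η) * p ≤ c₂₃) :
    ∃ x y z : ZMod p, x ∉ S₁ ∧ y ∉ S₂ ∧ z ∉ S₃ ∧ x - y ∉ S₁₂ ∧ x - z ∉ S₁₃ ∧ y - z ∉ S₂₃ := by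
  have he4 : 100 * η ≤ 1 := he2.trans he3
  have hp1 : 40 ≤ η * p := by
    rw [div_le_iff₀ he] at hp
    linarith
  have hpp : (0 : ℝ) < p := by
    by_contra h
    nlinarith
  have h4000 : (4000 : ℝ) ≤ p := by nlinarith
  have h4000' : 4000 ≤ p := by exact_mod_cast h4000
  obtain ⟨n₁, a₁, b₁, e₁, f₁⟩ := size_of_dens η he he4 hp d₁ u₁ l₁ _ _ g₁ k₁
  obtain ⟨n₂, a₂, b₂, e₂, f₂⟩ := size_of_dens η he he4 hp d₂ u₂ l₂ _ _ g₂ k₂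
  obtain ⟨n₃, a₃, b₃, e₃, f₃⟩ := size_of_dens η he he4 hp d₃ u₃ l₃ _ _ g₃ k₃
  obtain ⟨n₄, a₄, b₄, e₄, f₄⟩ := size_of_dens η he he4 hp d₁₂ u₁₂ l₁₂ _ _ g₁₂ k₁₂
  obtain ⟨n₅, a₅, b₅, e₅, f₅⟩ := size_of_dens η he he4 hp d₁₃ u₁₃ l₁₃ _ _ g₁₃ k₁₃
  obtain ⟨n₆, a₆, b₆, e₆, f₆⟩ := size_of_dens η he he4 hp d₂₃ u₂₃ l₂₃ _ _ g₂₃ k₂₃
  obtain ⟨e, h1, h2, h3⟩ : ∃ e : ℕ, 4 * e < p ∧ p ≤ 6 * e ∧ p ≤ 4 * e + 4 :=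
    ⟨(p - 1) / 4, by omega, by omega, by omega⟩
  refine Pool.Agent.Lib_helper49.FP.k4_zmod6 e h1 h2 S₁ S₂ S₃ S₁₂ S₁₃ S₂₃ n₁ n₂ n₃ n₄ n₅ n₆ a₁ a₂ a₃ a₄ a₅ a₆ b₁ b₂ b₃ b₄ b₅
    b₆ e₁ e₂ e₃ e₄ e₅ e₆ ?_
  have h3' : (p : ℝ) ≤ 4 * e + 4 := by exact_mod_cast h3
  have : (n₁ : ℝ) + n₂ + n₃ + n₄ + n₅ + n₆ < 12 * e := by nlinarith
  exact_mod_cast this

end Pool.Agent.HOM
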