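import Pool.Agent.Lib_helper33.HOMF.LB

/-!
# The lower bound for the nested mean, with arbitrary sets of good places
-/

set_option autoImplicit false

namespace Pool.Agent.HOM

open Filter Topology
open scoped BigOperators ComplexConjugate

/-- the mean of an indicator function is at most one -/
theorem lower3_ind (m : Mn ℤ) (A : Set ℤ) (c e : ℝ) (hc : 0 ≤ c) (S : ℤ → ℝ) (hS : Bd S)
    (h0 : ∀ x, 0 ≤ S x) (h : ∀ x ∈ A, c ≤ S x) (he : e ≤ m.L (Set.indicator A 1)) :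
    c * e ≤ m.L S := by
  refine lb_ind m A c e hc S hS (fun x => ?_) he
  by_cases hx : x ∈ A
  · rw [Set.indicator_of_mem hx, Pi.one_apply, mul_one]; exact h x hx
  · rw [Set.indicator_of_notMem hx, mul_zero]; exact h0 x

/-- `LB.lower` with one mean, one step `t` and arbitrary sets of good places: if the sum over all
`j₁, j₂, j₃ < p` of the six factors is at least `κ` at all good places, then `T3` is at least
`κ μ₁ μ₂ μ₃ / p ^ 3`, where `μᵢ` are lower bounds for the means of the sets of good places. -/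
theorem lower3 (m : Mn ℤ) (hm : m.Inv) (p : ℕ) (t : ℤ) (H G₀ G₁ F₀ F₁ F₂ : ℤ → ℝ)
    (hH : ∀ x, 0 ≤ H x ∧ H x ≤ 2) (hG₀ : ∀ x, 0 ≤ G₀ x ∧ G₀ x ≤ 2)
    (hG₁ : ∀ x, 0 ≤ G₁ x ∧ G₁ x ≤ 2) (hF₀ : ∀ x, 0 ≤ F₀ x ∧ F₀ x ≤ 2)
    (hF₁ : ∀ x, 0 ≤ F₁ x ∧ F₁ x ≤ 2) (hF₂ : ∀ x, 0 ≤ F₂ x ∧ F₂ x ≤ 2)
    (κ μ₁ μ₂ μ₃ : ℝ) (hκ : 0 ≤ κ) (hμ₁ : 0 ≤ μ₁) (hμ₂ : 0 ≤ μ₂)
    (A₃ : Set ℤ) (A₂ : ℤ → Set ℤ) (A₁ : ℤ → ℤ → Set ℤ)
    (key : ∀ v ∈ A₃, ∀ u ∈ A₂ v, ∀ x ∈ A₁ v u, κ ≤ ∑ j₁ ∈ Finset.range p,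
      ∑ j₂ ∈ Finset.range p, ∑ j₃ ∈ Finset.range p, H (v + j₃ * t) *
        (G₀ (u + j₂ * t) * G₁ (u - v + ((j₂ : ℤ) - j₃) * t) *
          (F₀ (x + j₁ * t) * F₁ (x - u + ((j₁ : ℤ) - j₂) * t) *
            F₂ (x - v + ((j₁ : ℤ) - j₃) * t))))
    (e₃ : μ₃ ≤ m.L (A₃.indicator 1)) (e₂ : ∀ v ∈ A₃, μ₂ ≤ m.L ((A₂ v).indicator 1))
    (e₁ : ∀ v ∈ A₃, ∀ u ∈ A₂ v, μ₁ ≤ m.L ((A₁ v u).indicator 1)) :
    κ * μ₁ * μ₂ * μ₃ ≤ (p : ℝ) ^ 3 * T3 m m m 0 0 1 1 H G₀ G₁ F₀ F₁ F₂ := by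
  set T : ℕ → ℕ → ℕ → ℤ → ℤ → ℤ → ℝ := lbT t t t 0 0 1 1 H G₀ G₁ F₀ F₁ F₂ with hT
  have hTr : ∀ j₁ j₂ j₃ v u x, 0 ≤ T j₁ j₂ j₃ v u x ∧ T j₁ j₂ j₃ v u x ≤ 64 :=
    lb_T_rng t t t 0 0 1 1 H G₀ G₁ F₀ F₁ F₂ hH hG₀ hG₁ hF₀ hF₁ hF₂
  set S : ℤ → ℤ → ℤ → ℝ := fun v u x => ∑ j₁ ∈ Finset.range p, ∑ j₂ ∈ Finset.range p,
    ∑ j₃ ∈ Finset.range p, T j₁ j₂ j₃ v u x with hS
  set C : ℝ := ∑ j₁ ∈ Finset.range p, ∑ j₂ ∈ Finset.range p, ∑ j₃ ∈ Finset.range p, (64 : ℝ)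
    with hC
  have hS0 : ∀ v u x, 0 ≤ S v u x := fun v u x => Finset.sum_nonneg fun j₁ _ =>
    Finset.sum_nonneg fun j₂ _ => Finset.sum_nonneg fun j₃ _ => (hTr j₁ j₂ j₃ v u x).1
  have hS1 : ∀ v u x, S v u x ≤ C := fun v u x => Finset.sum_le_sum fun j₁ _ =>
    Finset.sum_le_sum fun j₂ _ => Finset.sum_le_sum fun j₃ _ => (hTr j₁ j₂ j₃ v u x).2
  have hSC : ∀ v u x, |S v u x| ≤ C := fun v u x => by
    rw [abs_of_nonneg (hS0 v u x)]; exact hS1 v u x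
  have e : (p : ℝ) ^ 3 * T3 m m m 0 0 1 1 H G₀ G₁ F₀ F₁ F₂ =
      m.L (fun v => m.L (fun u => m.L (fun x => S v u x))) := by
    have e1 : ∀ v u, m.L (fun x => S v u x) = ∑ j₁ ∈ Finset.range p, ∑ j₂ ∈ Finset.range p,
        ∑ j₃ ∈ Finset.range p, m.L (fun x => T j₁ j₂ j₃ v u x) := by
      intro v u
      rw [hS]
      simp only
      rw [lb_sum]
      refine Finset.sum_congr rfl fun j₁ _ => ?_
      rw [lb_sum]
      refine Finset.sum_congr rfl fun j₂ _ => ?_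
      rw [lb_sum]
    have e2 : ∀ v, m.L (fun u => m.L (fun x => S v u x)) = ∑ j₁ ∈ Finset.range p,
        ∑ j₂ ∈ Finset.range p, ∑ j₃ ∈ Finset.range p,
          m.L (fun u => m.L (fun x => T j₁ j₂ j₃ v u x)) := by
      intro v
      simp only [e1]
      rw [lb_sum]
      refine Finset.sum_congr rfl fun j₁ _ => ?_
      rw [lb_sum]
      refine Finset.sum_congr rfl fun j₂ _ => ?_
      rw [lb_sum]
    simp only [e2]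
    rw [lb_sum]
    have e3 : ∀ j₁ ∈ Finset.range p, m.L (fun v => ∑ j₂ ∈ Finset.range p,
        ∑ j₃ ∈ Finset.range p, m.L (fun u => m.L (fun x => T j₁ j₂ j₃ v u x))) =
        (p : ℝ) ^ 2 * T3 m m m 0 0 1 1 H G₀ G₁ F₀ F₁ F₂ := by
      intro j₁ _
      rw [lb_sum]
      have e4 : ∀ j₂ ∈ Finset.range p, m.L (fun v =>
          ∑ j₃ ∈ Finset.range p, m.L (fun u => m.L (fun x => T j₁ j₂ j₃ v u x))) =
          (p : ℝ) * T3 m m m 0 0 1 1 H G₀ G₁ F₀ F₁ F₂ := by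
        intro j₂ _
        rw [lb_sum]
        have e5 : ∀ j₃ ∈ Finset.range p, m.L (fun v =>
            m.L (fun u => m.L (fun x => T j₁ j₂ j₃ v u x))) =
            T3 m m m 0 0 1 1 H G₀ G₁ F₀ F₁ F₂ := by
          intro j₃ _
          exact (lb_shift m m m hm hm hm 0 0 1 1 t t t (by simp) (by simp) H G₀ G₁ F₀ F₁ F₂ hH hG₀
            hG₁ hF₀ hF₁ hF₂ j₁ j₂ j₃).symm
        rw [Finset.sum_congr rfl e5, Finset.sum_const, Finset.card_range, nsmul_eq_mul]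
      rw [Finset.sum_congr rfl e4, Finset.sum_const, Finset.card_range, nsmul_eq_mul]
      ring
    rw [Finset.sum_congr rfl e3, Finset.sum_const, Finset.card_range, nsmul_eq_mul]
    ring
  rw [e]
  have key' : ∀ v ∈ A₃, ∀ u ∈ A₂ v, ∀ x ∈ A₁ v u, κ ≤ S v u x := by
    intro v hv u hu x hx
    refine (key v hv u hu x hx).trans (le_of_eq ?_)
    rw [hS]
    simp only
    refine Finset.sum_congr rfl fun j₁ _ => Finset.sum_congr rfl fun j₂ _ =>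
      Finset.sum_congr rfl fun j₃ _ => ?_
    rw [hT]
    unfold lbT
    simp only [Nat.cast_one, one_mul, zero_add]
  have b1 : ∀ v u, |m.L (fun x => S v u x)| ≤ C := fun v u => abs_L_le_const m C (hSC v u)
  have b1' : ∀ v u, 0 ≤ m.L (fun x => S v u x) := fun v u =>
    m.nonneg _ (Bd.of_abs_le C (hSC v u)) (hS0 v u)
  have b2 : ∀ v, |m.L (fun u => m.L (fun x => S v u x))| ≤ C := fun v =>
    abs_L_le_const m C (b1 v)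
  have b2' : ∀ v, 0 ≤ m.L (fun u => m.L (fun x => S v u x)) := fun v =>
    m.nonneg _ (Bd.of_abs_le C (b1 v)) (b1' v)
  refine lower3_ind m A₃ (κ * μ₁ * μ₂) μ₃ (by positivity) _ (Bd.of_abs_le C b2) b2' ?_ e₃
  intro v hv
  refine lower3_ind m (A₂ v) (κ * μ₁) μ₂ (by positivity) _ (Bd.of_abs_le C (b1 v)) (b1' v) ?_
    (e₂ v hv)
  intro u hu
  exact lower3_ind m (A₁ v u) κ μ₁ hκ _ (Bd.of_abs_le C (hSC v u)) (hS0 v u) (key' v hv u hu)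
    (e₁ v hv u hu)

end Pool.Agent.HOM
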