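import Pool.Agent.Lib_helper33.FP.Package3
import Pool.Agent.Lib_helper33.FP.Lower3
import Pool.Agent.Lib_helper33.FP.EvN
import Pool.Agent.Lib_helper33.FP.Fin
import Pool.Agent.Lib_helper23.HALF.Six
import Pool.Agent.Lib_helper23.FP.TR
import Pool.Agent.Lib_helper42.FP.Mixed

/-!
# The density of non gaps among the even numbers is at most a half
-/

set_option autoImplicit false

namespace Pool.Agent.HOM

open Filter Topology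
open scoped BigOperators

/-- The six numbers `d` at a good triple of places, and the lower bound for the sum of products. -/
theorem main_pt (p : ℕ) (hp : p.Prime) (η : ℝ) (hη : 0 < η) (hη1 : η ≤ 1 / 1000)
    (hpη : 40 / η ≤ p) (θ : ℝ) (hθ : 0 ≤ θ) (t : ℤ) (H G₀ G₁ F₀ F₁ F₂ : ℤ → ℝ)
    (hH : ∀ x, 0 ≤ H x ∧ H x ≤ 2) (hG₀ : ∀ x, 0 ≤ G₀ x ∧ G₀ x ≤ 2)
    (hG₁ : ∀ x, 0 ≤ G₁ x ∧ G₁ x ≤ 2) (hF₀ : ∀ x, 0 ≤ F₀ x ∧ F₀ x ≤ 2)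
    (hF₁ : ∀ x, 0 ≤ F₁ x ∧ F₁ x ≤ 2) (hF₂ : ∀ x, 0 ≤ F₂ x ∧ F₂ x ≤ 2) (v u x : ℤ)
    (d₁ d₂ d₃ d₁₂ d₁₃ d₂₃ T A B : ℝ) (b₁ : d₁ ≤ 2 / 3 + η) (b₂ : d₂ ≤ 2 / 3 + η)
    (b₃ : d₃ ≤ 2 / 3 + η) (b₁₂ : d₁₂ ≤ 2 / 3 + η) (b₁₃ : d₁₃ ≤ 2 / 3 + η)
    (b₂₃ : d₂₃ ≤ 2 / 3 + η) (bA : A ≤ 4 / 3 + 2 * η) (bB : B ≤ 2 / 3 + η)
    (hT : 3 / 2 + 100 * η ≤ T) (hAB : T ≤ A + B)
    (s₁ : T - η ≤ d₁ + d₁₂ + d₁₃) (s₂ : A - η ≤ d₂ + d₂₃) (s₃ : B - η ≤ d₃)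
    (k₁ : (d₁ - η) * p ≤ cnt p t θ F₀ x) (k₂ : (d₂ - η) * p ≤ cnt p t θ G₀ u)
    (k₃ : (d₃ - η) * p ≤ cnt p t θ H v) (k₁₂ : (d₁₂ - η) * p ≤ cnt p t θ F₁ (x - u))
    (k₁₃ : (d₁₃ - η) * p ≤ cnt p t θ F₂ (x - v))
    (k₂₃ : (d₂₃ - η) * p ≤ cnt p t θ G₁ (u - v)) :
    θ ^ 6 ≤ ∑ j₁ ∈ Finset.range p, ∑ j₂ ∈ Finset.range p, ∑ j₃ ∈ Finset.range p,
      H (v + j₃ * t) * (G₀ (u + j₂ * t) * G₁ (u - v + ((j₂ : ℤ) - j₃) * t) *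
        (F₀ (x + j₁ * t) * F₁ (x - u + ((j₁ : ℤ) - j₂) * t) *
          F₂ (x - v + ((j₁ : ℤ) - j₃) * t))) := by
  have : Fact p.Prime := ⟨hp⟩
  refine Pool.Agent.HALF.six_gen p hp θ hθ t H G₀ G₁ F₀ F₁ F₂ (fun x => (hH x).1)
    (fun x => (hG₀ x).1) (fun x => (hG₁ x).1) (fun x => (hF₀ x).1) (fun x => (hF₁ x).1)
    (fun x => (hF₂ x).1) v u (u - v) x (x - u) (x - v) ?_
  intro S₁ S₂ S₃ S₁₂ S₁₃ S₂₃ g₁ g₂ g₃ g₁₂ g₁₃ g₂₃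
  exact four_of_dens η (100 * η) hη le_rfl (by linarith) hpη d₁ d₂ d₃ d₁₂ d₁₃ d₂₃ b₁ b₂ b₃ b₁₂
    b₁₃ b₂₃ (by linarith) (by linarith) (by linarith) (by linarith) (by linarith) (by linarith)
    (by linarith) S₁ S₂ S₃ S₁₂ S₁₃ S₂₃ _ _ _ _ _ _ g₁ g₂ g₃ g₁₂ g₁₃ g₂₃ k₁ k₂ k₃ k₁₂ k₁₃ k₂₃

/-- passing to a smaller threshold -/
theorem main_cnt {p : ℕ} {t : ℤ} {F : ℤ → ℝ} {y : ℤ} {d ε η θ : ℝ} (h : θ ≤ ε / 32)
    (hε : ε / 4 ≤ η) (hc : (d - ε / 4) * p ≤ (cnt p t (ε / 32) F y : ℝ)) :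
    (d - η) * p ≤ (cnt p t θ F y : ℝ) := by
  have h1 : (cnt p t (ε / 32) F y : ℝ) ≤ cnt p t θ F y := by
    exact_mod_cast za_cnt_mono p t F y h
  have h2 : (d - η) * (p : ℝ) ≤ (d - ε / 4) * p :=
    mul_le_mul_of_nonneg_right (by linarith) (Nat.cast_nonneg _)
  linarith

/-- **The weighted density of the non gaps in two classes modulo `3`.** -/
theorem main_T (D : Set ℕ) (k : ℕ) (hD : Pool.Agent.Lib_helper23.PG.HitsBins 4 k D)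
    (third : ∀ M : ℕ, 0 < M → ∀ η : ℝ, 0 < η → ∃ L : ℕ, ∀ N : ℕ, L ≤ N → ∀ x : ℤ,
      dn M N (fun n => CI D (2 * n)) x ≤ 2 / 3 + η) (m : Mn ℤ) (hm : m.Inv) :
    den m (fun n => CI D (2 * n)) 3 0 + 2 * den m (fun n => CI D (2 * n)) 3 1 ≤ 3 / 2 := by
  classical
  by_contra hcon
  push Not at hcon
  set f : ℤ → ℝ := fun n => CI D (2 * n) with hfdef
  have hf : ∀ x, 0 ≤ f x ∧ f x ≤ 1 := fun x => za_CI_rng D _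
  obtain ⟨T, hT⟩ : ∃ T, T = den m f 3 0 + 2 * den m f 3 1 := ⟨_, rfl⟩
  rw [← hT] at hcon
  obtain ⟨η, hη, hη1, hη2⟩ : ∃ η : ℝ, 0 < η ∧ η ≤ 1 / 1000 ∧ 3 / 2 + 100 * η ≤ T :=
    ⟨min ((T - 3 / 2) / 100) (1 / 1000), lt_min (by linarith) (by norm_num), min_le_right _ _, by
      have := min_le_left ((T - 3 / 2) / 100) (1 / 1000 : ℝ)
      linarith⟩
  have hden : ∀ (M : ℕ), 0 < M → ∀ r : ℤ, den m f M r ≤ 2 / 3 + η := fun M hM r => by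
    obtain ⟨L, hL⟩ := third M hM η hη
    exact den_le m hm f hf M (L + 1) hM (Nat.succ_pos _) _ (hL (L + 1) (Nat.le_succ _)) r
  -- first level
  obtain ⟨f₁, hf₁⟩ : ∃ g : ℤ → ℝ, g = fun n => if n % 3 = 2 then 0 else f n := ⟨_, rfl⟩
  have r₁ : ∀ x, 0 ≤ f₁ x ∧ f₁ x ≤ 1 := fun x => by
    rw [hf₁]
    dsimp only
    split_ifs
    · exact ⟨le_rfl, zero_le_one⟩
    · exact hf x
  obtain ⟨M₁, Z₁, δ₁, hM₁, h3M₁, hδ₁, hZ₁, P₁⟩ := package3 m hm r₁ 3 (by norm_num)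
    (η ^ 2 / 1000) (η / 32) (by positivity) (by positivity) (by linarith)
  obtain ⟨u₀, w, hu₀, hw, hT1⟩ := den_avg m hm f hf M₁ hM₁ h3M₁
  rw [← hT] at hT1
  have hM₁R : (1 : ℝ) ≤ M₁ := by exact_mod_cast hM₁
  -- second level
  obtain ⟨f₂, hf₂⟩ : ∃ g : ℤ → ℝ, g = fun n => if n ∈ cls M₁ u₀ ∨ n ∈ cls M₁ (u₀ - w) then f n
    else 0 := ⟨_, rfl⟩
  have r₂ : ∀ x, 0 ≤ f₂ x ∧ f₂ x ≤ 1 := fun x => by
    rw [hf₂]
    dsimp only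
    split_ifs
    · exact hf x
    · exact ⟨le_rfl, zero_le_one⟩
  obtain ⟨ε₂, hε₂⟩ : ∃ e : ℝ, e = η / M₁ := ⟨_, rfl⟩
  have hε₂0 : 0 < ε₂ := by rw [hε₂]; positivity
  have hε₂1 : ε₂ ≤ η := by rw [hε₂]; exact div_le_self hη.le hM₁R
  obtain ⟨M₂, Z₂, δ₂, hM₂, hM₁₂, hδ₂, hZ₂, P₂⟩ := package3 m hm r₂ M₁ hM₁
    (ε₂ ^ 2 / 1000) (ε₂ / 32) (by positivity) (by positivity) (by linarith)
  obtain ⟨w', hw', hT2⟩ := den_ref m hm f hf M₁ M₂ hM₁ hM₂ hM₁₂ w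
  have hM₂R : (1 : ℝ) ≤ M₂ := by exact_mod_cast hM₂
  have hM₁₂R : (M₁ : ℝ) ≤ M₂ := by exact_mod_cast Nat.le_of_dvd hM₂ hM₁₂
  -- third level
  obtain ⟨f₃, hf₃⟩ : ∃ g : ℤ → ℝ, g = fun n => if n ∈ cls M₂ w' then f n else 0 := ⟨_, rfl⟩
  have r₃ : ∀ x, 0 ≤ f₃ x ∧ f₃ x ≤ 1 := fun x => by
    rw [hf₃]
    dsimp only
    split_ifs
    · exact hf x
    · exact ⟨le_rfl, zero_le_one⟩
  obtain ⟨ε₃, hε₃⟩ : ∃ e : ℝ, e = η / M₂ := ⟨_, rfl⟩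
  have hε₃0 : 0 < ε₃ := by rw [hε₃]; positivity
  have hε₃2 : ε₃ ≤ ε₂ := by
    rw [hε₃, hε₂]
    exact div_le_div_of_nonneg_left hη.le (by linarith) hM₁₂R
  have hε₃1 : ε₃ ≤ η := hε₃2.trans hε₂1
  obtain ⟨M₃, Z₃, δ₃, hM₃, hM₂₃, hδ₃, hZ₃, P₃⟩ := package3 m hm r₃ M₂ hM₂
    (ε₃ ^ 2 / 1000) (ε₃ / 32) (by positivity) (by positivity) (by linarith)
  -- divisibilities
  have dv3 : ∀ {n r : ℤ}, n ∈ cls M₁ r → n % 3 = r % 3 := fun {n r} h => by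
    rw [mem_cls] at h
    have h3 : (3 : ℤ) ∣ n - r := (show (3 : ℤ) ∣ (M₁ : ℤ) by exact_mod_cast h3M₁).trans h
    omega
  have hM₁₂Z : (M₁ : ℤ) ∣ (M₂ : ℤ) := by exact_mod_cast hM₁₂
  have hM₂₃Z : (M₂ : ℤ) ∣ (M₃ : ℤ) := by exact_mod_cast hM₂₃
  have dv12 : ∀ {n : ℤ}, n ∈ cls M₂ w' → n ∈ cls M₁ w := fun {n} h => by
    rw [mem_cls] at h ⊢
    rw [show n - w = (n - w') + (w' - w) by ring]
    exact dvd_add (hM₁₂Z.trans h) hw'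
  -- the mean of the `K_4` is zero
  have hnull : T3 m m m 0 0 1 1 f₃ f₂ f₂ f₁ f₁ f₁ = 0 := by
    refine T3_zero m f₁ f₂ f₃ (g01 D) (g1 D) (g0 D) (fun n => ?_) (fun n => ?_) (fun n => ?_)
      (k4null_mixed D k hD m hm)
    · refine ⟨(r₁ n).1, ?_, ?_⟩
      · rw [hf₁]
        unfold g01
        dsimp only
        by_cases h : n % 3 = 2
        · rw [if_pos h, if_neg (by omega)]
        · rw [if_neg h, if_pos h]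
      · unfold g01
        split_ifs
        · exact (hf n).2
        · exact zero_le_one
    · refine ⟨(r₂ n).1, ?_, ?_⟩
      · rw [hf₂]
        unfold g1
        dsimp only
        by_cases h : n ∈ cls M₁ u₀ ∨ n ∈ cls M₁ (u₀ - w)
        · rw [if_pos h, if_pos (by
            rcases h with h | h
            · have := dv3 h; omega
            · have := dv3 h; omega)]
        · rw [if_neg h]
          split_ifs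
          · exact (hf n).1
          · exact le_rfl
      · unfold g1
        split_ifs
        · exact (hf n).2
        · exact zero_le_one
    · refine ⟨(r₃ n).1, ?_, ?_⟩
      · rw [hf₃]
        unfold g0
        dsimp only
        by_cases h : n ∈ cls M₂ w'
        · rw [if_pos h, if_pos (by have := dv3 (dv12 h); omega)]
        · rw [if_neg h]
          split_ifs
          · exact (hf n).1
          · exact le_rfl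
      · unfold g0
        split_ifs
        · exact (hf n).2
        · exact zero_le_one
  -- sampling
  obtain ⟨p, hp, hpP, hsamp⟩ := sampling (Z₁ ∪ Z₂ ∪ Z₃) (by
    intro z hz
    rw [Finset.mem_union, Finset.mem_union] at hz
    rcases hz with (hz | hz) | hz
    · exact hZ₁ z hz
    · exact hZ₂ z hz
    · exact hZ₃ z hz) M₃ hM₃ ⌈40 / η⌉₊
  have hp0 : 0 < p := hp.pos
  have hp0' : (0 : ℝ) < p := by exact_mod_cast hp0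
  have hpη : 40 / η ≤ p := (Nat.le_ceil _).trans (by exact_mod_cast hpP.le)
  obtain ⟨δ, hδ⟩ : ∃ e : ℝ, e = min δ₁ (min δ₂ δ₃) / p := ⟨_, rfl⟩
  have hδ0 : 0 < δ := by
    rw [hδ]; exact div_pos (lt_min hδ₁ (lt_min hδ₂ hδ₃)) hp0'
  have hδ1' : δ ≤ δ₁ / p := by
    rw [hδ]; exact div_le_div_of_nonneg_right (min_le_left _ _) hp0'.le
  have hδ2' : δ ≤ δ₂ / p := by
    rw [hδ]; exact div_le_div_of_nonneg_right ((min_le_right _ _).trans (min_le_left _ _)) hp0'.le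
  have hδ3' : δ ≤ δ₃ / p := by
    rw [hδ]; exact div_le_div_of_nonneg_right ((min_le_right _ _).trans (min_le_right _ _)) hp0'.le
  obtain ⟨t, ht0, hMt, ht⟩ := hsamp δ hδ0
  have hMt3 : (M₃ : ℤ) ∣ (t : ℤ) := by exact_mod_cast hMt
  obtain ⟨L₁, hL₁⟩ := third M₁ hM₁ η hη
  obtain ⟨L₂, hL₂⟩ := third M₂ hM₂ η hη
  obtain ⟨L₃, hL₃⟩ := third M₃ hM₃ η hη
  obtain ⟨N₁, hN₁, hN₁0, h₁, Q₁⟩ := P₁ p t hp0 ((hM₁₂Z.trans hM₂₃Z).trans hMt3) (fun z hz => by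
    obtain ⟨w, hw1, hw2, hw3⟩ := ht z (Finset.mem_union_left _ (Finset.mem_union_left _ hz))
    exact ⟨w, hw1, hw2, hw3.trans hδ1'⟩) L₁
  obtain ⟨N₂, hN₂, hN₂0, h₂, Q₂⟩ := P₂ p t hp0 (hM₂₃Z.trans hMt3) (fun z hz => by
    obtain ⟨w, hw1, hw2, hw3⟩ := ht z (Finset.mem_union_left _ (Finset.mem_union_right _ hz))
    exact ⟨w, hw1, hw2, hw3.trans hδ2'⟩) L₂
  obtain ⟨N₃, hN₃, hN₃0, h₃, Q₃⟩ := P₃ p t hp0 hMt3 (fun z hz => by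
    obtain ⟨w, hw1, hw2, hw3⟩ := ht z (Finset.mem_union_right _ hz)
    exact ⟨w, hw1, hw2, hw3.trans hδ3'⟩) L₃
  -- measures of the events
  obtain ⟨μ₁, hμ₁⟩ : ∃ μ : ℝ, μ = η / 20 := ⟨_, rfl⟩
  obtain ⟨μ₂, hμ₂⟩ : ∃ μ : ℝ, μ = η / M₁ / 3 := ⟨_, rfl⟩
  obtain ⟨μ₃, hμ₃⟩ : ∃ μ : ℝ, μ = η / M₂ / 2 := ⟨_, rfl⟩
  have hμ₁0 : 0 < μ₁ := by rw [hμ₁]; positivity
  have hμ₂0 : 0 < μ₂ := by rw [hμ₂]; positivity
  have hμ₃0 : 0 < μ₃ := by rw [hμ₃]; positivity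
  obtain ⟨θ, hθ⟩ : ∃ θ : ℝ, θ = ε₃ / 32 := ⟨_, rfl⟩
  have hθ0 : 0 < θ := by rw [hθ]; positivity
  obtain ⟨κ, hκ⟩ : ∃ κ : ℝ, κ = θ ^ 6 * μ₁ * μ₂ * μ₃ / (2 * (p : ℝ) ^ 3) := ⟨_, rfl⟩
  have hκ0 : 0 < κ := by rw [hκ]; positivity
  obtain ⟨H, G₀, G₁, F₀, F₁, F₂, rH, rG₀, rG₁, rF₀, rF₁, rF₂, cH, cG₀, cG₁, cF₀, cF₁, cF₂, hT3⟩ :=
    count m m m hm hm hm f₁ f₂ f₃ h₁ h₂ h₃ r₁ r₂ r₃ _ _ _ Q₁.fa Q₂.fa Q₃.fa 0 0 1 1
      one_pos one_pos κ hκ0 hnull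
  have hlow := lower3 m hm p t H G₀ G₁ F₀ F₁ F₂ rH rG₀ rG₁ rF₀ rF₁ rF₂ (θ ^ 6) μ₁ μ₂ μ₃
    (by positivity) hμ₁0.le hμ₂0.le
    {v : ℤ | v ∈ cls M₂ w' ∧ den m f M₂ w' - η ≤ dn M₃ N₃ f v ∧
      (dn M₃ N₃ f v - ε₃ / 4) * p ≤ (cnt p t (ε₃ / 32) H v : ℝ)}
    (fun v => {u : ℤ | u ∈ cls M₁ u₀ ∧
      (den m f M₁ u₀ + den m f M₁ (u₀ - w)) - η ≤ dn M₂ N₂ f u + dn M₂ N₂ f (u - v) ∧
      (dn M₂ N₂ f u - ε₂ / 4) * p ≤ (cnt p t (ε₂ / 32) G₀ u : ℝ) ∧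
      (dn M₂ N₂ f (u - v) - ε₂ / 4) * p ≤ (cnt p t (ε₂ / 32) G₁ (u - v) : ℝ)})
    (fun v u => {x : ℤ | x ∈ cls 3 1 ∧
      T - η ≤ dn M₁ N₁ f x + dn M₁ N₁ f (x - u) + dn M₁ N₁ f (x - v) ∧
      (dn M₁ N₁ f x - η / 4) * p ≤ (cnt p t (η / 32) F₀ x : ℝ) ∧
      (dn M₁ N₁ f (x - u) - η / 4) * p ≤ (cnt p t (η / 32) F₁ (x - u) : ℝ) ∧
      (dn M₁ N₁ f (x - v) - η / 4) * p ≤ (cnt p t (η / 32) F₂ (x - v) : ℝ)})
    (by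
      rintro v ⟨hv1, hv2, hv3⟩ u ⟨hu1, hu2, hu3, hu4⟩ x ⟨hx1, hx2, hx3, hx4, hx5⟩
      refine main_pt p hp η hη hη1 hpη θ hθ0.le t H G₀ G₁ F₀ F₁ F₂ rH rG₀ rG₁ rF₀ rF₁ rF₂ v u x
        (dn M₁ N₁ f x) (dn M₂ N₂ f u) (dn M₃ N₃ f v) (dn M₁ N₁ f (x - u)) (dn M₁ N₁ f (x - v))
        (dn M₂ N₂ f (u - v)) T (den m f M₁ u₀ + den m f M₁ (u₀ - w)) (den m f M₂ w')
        (hL₁ N₁ hN₁ x) (hL₂ N₂ hN₂ u) (hL₃ N₃ hN₃ v) (hL₁ N₁ hN₁ _) (hL₁ N₁ hN₁ _)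
        (hL₂ N₂ hN₂ _) ?_ (hden M₂ hM₂ w') hη2 ?_ hx2 hu2 hv2
        (main_cnt (by rw [hθ]; linarith) (by linarith) hx3)
        (main_cnt (by rw [hθ]; linarith) (by linarith) hu3)
        (main_cnt (by rw [hθ]) (by linarith) hv3)
        (main_cnt (by rw [hθ]; linarith) (by linarith) hx4)
        (main_cnt (by rw [hθ]; linarith) (by linarith) hx5)
        (main_cnt (by rw [hθ]; linarith) (by linarith) hu4)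
      · have := hden M₁ hM₁ u₀
        have := hden M₁ hM₁ (u₀ - w)
        linarith
      · linarith)
    (by
      refine le_trans ?_ (ev1 m hm f f₃ hf M₂ M₃ N₃ p hM₂ hM₂₃ hN₃0 hp0 t h₃ w' H ε₃ η
        (den m f M₂ w') hε₃0 (by linarith) Q₃ (fun x hx => by rw [hf₃]; exact if_pos hx) rH cH ?_
        le_rfl)
      · rw [hμ₃, hε₃]
        have : 0 < η / M₂ := by positivity
        linarith
      · have h1 := hden M₁ hM₁ u₀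
        have h2 := hden M₁ hM₁ (u₀ - w)
        linarith)
    (by
      rintro v ⟨hv1, -, -⟩
      have hv : v ∈ cls M₁ w := dv12 hv1
      have hcl : (M₁ : ℤ) ∣ (u₀ - v) - (u₀ - w) := by
        rw [mem_cls] at hv
        rw [show (u₀ - v) - (u₀ - w) = -(v - w) by ring]
        exact (dvd_neg).2 hv
      refine le_trans ?_ (ev2 m hm f f₂ hf M₁ M₂ N₂ p hM₁ hM₁₂ hN₂0 hp0 t h₂ u₀ v G₀ G₁ ε₂ η
        (den m f M₁ u₀ + den m f M₁ (u₀ - w)) hε₂0 (by linarith) Q₂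
        (fun x hx => by rw [hf₂]; exact if_pos (Or.inl hx))
        (fun x hx => by
          rw [cls_eq hcl] at hx
          rw [hf₂]; exact if_pos (Or.inr hx)) rG₀ rG₁ cG₀ cG₁ ?_ ?_)
      · rw [hμ₂, hε₂, show η / (2 * (M₁ : ℝ)) = η / M₁ / 2 by rw [div_div, mul_comm]]
        have : 0 < η / M₁ := by positivity
        linarith
      · have h1 := hden M₁ hM₁ w
        linarith
      · rw [den_congr m f M₁ (u₀ - v) (u₀ - w) hcl])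
    (by
      rintro v ⟨hv1, -, -⟩ u ⟨hu1, -, -, -⟩
      have hv : v % 3 = 0 := by have := dv3 (dv12 hv1); omega
      have hu : u % 3 = 1 := by have := dv3 hu1; omega
      refine le_trans ?_ (ev3 m hm f f₁ hf 3 M₁ N₁ p (by norm_num) h3M₁ hN₁0 hp0 t h₁ 1 u v
        F₀ F₁ F₂ η η T hη (by linarith) Q₁ ?_ ?_ ?_ rF₀ rF₁ rF₂ cF₀ cF₁ cF₂ (by linarith) ?_)
      · rw [hμ₁]
        push_cast
        linarith
      · intro x hx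
        rw [mem_cls] at hx
        rw [hf₁]; exact if_neg (by omega)
      · intro x hx
        rw [mem_cls] at hx
        rw [hf₁]; exact if_neg (by omega)
      · intro x hx
        rw [mem_cls] at hx
        rw [hf₁]; exact if_neg (by omega)
      · rw [hT, den_congr m f 3 (1 - u) 0 (by omega), den_congr m f 3 (1 - v) 1 (by omega)]
        linarith)
  have hp3 : 0 < (p : ℝ) ^ 3 := by positivity
  have h1 : (p : ℝ) ^ 3 * T3 m m m 0 0 1 1 H G₀ G₁ F₀ F₁ F₂ ≤ (p : ℝ) ^ 3 * κ :=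
    mul_le_mul_of_nonneg_left hT3 hp3.le
  have h2 : (p : ℝ) ^ 3 * κ = θ ^ 6 * μ₁ * μ₂ * μ₃ / 2 := by
    rw [hκ]; field_simp
  have h3 : 0 < θ ^ 6 * μ₁ * μ₂ * μ₃ := by positivity
  linarith

/-- **Half key.** -/
theorem half_key (D : Set ℕ) (k : ℕ) (hD : Pool.Agent.Lib_helper23.PG.HitsBins 4 k D)
    (third : ∀ M : ℕ, 0 < M → ∀ η : ℝ, 0 < η → ∃ L : ℕ, ∀ N : ℕ, L ≤ N → ∀ x : ℤ,
      dn M N (fun n => CI D (2 * n)) x ≤ 2 / 3 + η) :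
    ∀ m : Mn ℤ, m.Inv → m.L (fun n => CI D (2 * n)) ≤ 1 / 2 :=
  half_of_T (fun n => CI D (2 * n)) (fun x => za_CI_rng D _) (fun n => by
    unfold CI
    congr 1
    simp) (fun m hm => main_T D k hD third m hm)

end Pool.Agent.HOM
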