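import Pool.Agent.Lib_helper33.HOMF.LA

/-!
# Good places of an averaged function
-/

set_option autoImplicit false

namespace Pool.Agent.HOM

open Filter Topology
open scoped BigOperators

/-- Off a small set of places, `F` is at least `ε / 32` on a proportion `d y - ε / 4` of the
progression `y + j t`. -/
theorem good_set (m : Mn ℤ) (hm : m.Inv) (ε : ℝ) (hε : 0 < ε) (hε2 : ε ≤ 1 / 2)
    (f h d : ℤ → ℝ) (M p : ℕ) (hp : 0 < p) (t : ℤ)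
    (hP : Pack m f h d M p t (ε ^ 2 / 1000) (ε / 32)) (F : ℤ → ℝ)
    (hF : ∀ x, 0 ≤ F x ∧ F x ≤ 2) (c : nrm m (fun x => F x - h x) ≤ ε ^ 2 / 1000) :
    ∃ C : Set ℤ, m.L (C.indicator 1) ≤ ε / 60 ∧
      ∀ y, y ∉ C → (d y - ε / 4) * p ≤ (cnt p t (ε / 32) F y : ℝ) := by
  obtain ⟨C, hC, hC'⟩ := la_bad m hm ε hε hε2 h p hp t F hF hP.h_rng c
  refine ⟨C, hC, fun y hy => ?_⟩
  have h1 := hP.low y
  have h2 := hC' y hy
  have hp' : (0 : ℝ) < p := by exact_mod_cast hp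
  nlinarith

/-- The same with a range up to one and an error `e'`, for the chosen parameters. -/
theorem good_set1 (m : Mn ℤ) (hm : m.Inv) (ε : ℝ) (hε : 0 < ε) (hε2 : ε ≤ 1 / 2)
    (f h d : ℤ → ℝ) (M p : ℕ) (hp : 0 < p) (t : ℤ)
    (hP : Pack m f h d M p t (ε ^ 2 / 1000) (ε / 32)) (F : ℤ → ℝ)
    (hF : ∀ x, 0 ≤ F x ∧ F x ≤ 1) (c : nrm m (fun x => F x - h x) ≤ ε ^ 2 / 1000) :
    ∃ C : Set ℤ, m.L (C.indicator 1) ≤ ε / 60 ∧
      ∀ y, y ∉ C → (d y - ε / 4) * p ≤ (cnt p t (ε / 32) F y : ℝ) :=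
  good_set m hm ε hε hε2 f h d M p hp t hP F
    (fun x => ⟨(hF x).1, (hF x).2.trans (by norm_num)⟩) c

end Pool.Agent.HOM

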